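import Pool.Agent.H580.MF.Base

set_option autoImplicit false

open MeasureTheory Set Filter
open scoped Topology

/-!
# The anchored isoperimetric profile
-/

namespace Pool.Agent.H580.MF

open Pool.Agent.Results.MP_e13933_pr.HalfSpace (V P openGraph cluster pc)

noncomputable section

variable {d : ℕ}

/-! ### Functions of finitely many vertices -/

lemma meas_local {β : Type*} [MeasurableSpace β] (F : Finset (V d)) (f : (V d → Bool) → β)
    (h : ∀ ω ω' : V d → Bool, (∀ y ∈ F, ω y = ω' y) → f ω = f ω') : Measurable f := by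
  classical
  let g : (F → Bool) → β := fun η => f (fun y => if hy : y ∈ F then η ⟨y, hy⟩ else false)
  have e : f = g ∘ (fun (ω : V d → Bool) (y : F) => ω y) := by
    funext ω
    apply h
    intro y hy
    simp [hy]
  rw [e]
  exact (measurable_of_countable g).comp (by fun_prop)

/-! ### Boxes -/

/-- the box -/
def bx (z : V d) (m : ℕ) : Finset (V d) := Fintype.piFinset fun i => Finset.Icc (z i - m) (z i + m)

lemma mem_bx {z y : V d} {m : ℕ} : y ∈ bx z m ↔ ∀ i, |y i - z i| ≤ m := by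
  unfold bx
  rw [Fintype.mem_piFinset]
  refine forall_congr' fun i => ?_
  rw [Finset.mem_Icc, abs_le]
  constructor <;> rintro ⟨h1, h2⟩ <;> constructor <;> omega

lemma card_bx (z : V d) (m : ℕ) : (bx z m).card = (2 * m + 1) ^ d := by
  unfold bx
  rw [Fintype.card_piFinset]
  have : ∀ i : Fin d, (Finset.Icc (z i - m) (z i + m)).card = 2 * m + 1 := by
    intro i
    rw [Int.card_Icc]
    omega
  simp [this]

/-- the box as a set -/
abbrev BX (z : V d) (m : ℕ) : Set (V d) := (bx z m : Set (V d))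

open Classical in
/-- the inner boundary of the box -/
def sph (z : V d) (m : ℕ) : Finset (V d) := (bx z m).filter fun y => ∃ i, |y i - z i| = m

lemma mem_sph {z y : V d} {m : ℕ} : y ∈ sph z m ↔ y ∈ bx z m ∧ ∃ i, |y i - z i| = m := by
  unfold sph
  rw [Finset.mem_filter]

/-- a face of the box -/
def face (i : Fin d) (s : Bool) (m : ℕ) : Finset (V d) :=
  Fintype.piFinset fun j => if j = i then {sg s * m} else Finset.Icc (-(m : ℤ)) m

lemma card_face (i : Fin d) (s : Bool) (m : ℕ) :
    ((face i s m).card : ℝ) = (2 * m + 1) ^ (d - 1) := by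
  unfold face
  rw [Fintype.card_piFinset]
  have h : ∀ j : Fin d, (if j = i then {sg s * (m : ℤ)} else Finset.Icc (-(m : ℤ)) m :
      Finset ℤ).card = if j = i then 1 else 2 * m + 1 := by
    intro j
    split_ifs with hj
    · simp
    · rw [Int.card_Icc]
      omega
  rw [Finset.prod_congr rfl fun j _ => h j, Finset.prod_ite, Finset.prod_const_one, one_mul,
    Finset.prod_const]
  have h2 : (Finset.univ.filter fun j : Fin d => ¬ j = i).card = d - 1 := by
    rw [Finset.filter_ne', Finset.card_erase_of_mem (Finset.mem_univ i), Finset.card_univ,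
      Fintype.card_fin]
  rw [h2]
  push_cast
  rfl

lemma mem_face {i : Fin d} {s : Bool} {m : ℕ} {y : V d} :
    y ∈ face i s m ↔ y i = sg s * m ∧ ∀ j, j ≠ i → |y j| ≤ m := by
  unfold face
  rw [Fintype.mem_piFinset]
  constructor
  · intro h
    refine ⟨?_, fun j hj => ?_⟩
    · have := h i
      rw [if_pos rfl, Finset.mem_singleton] at this
      exact this
    · have := h j
      rw [if_neg hj, Finset.mem_Icc] at this
      rw [abs_le]
      exact this
  · rintro ⟨h1, h2⟩ j
    split_ifs with hj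
    · rw [Finset.mem_singleton, hj, h1]
    · rw [Finset.mem_Icc, ← abs_le]
      exact h2 j hj

lemma sph_face {m : ℕ} {y : V d} (hy : y ∈ sph 0 m) : ∃ i s, y ∈ face i s m := by
  obtain ⟨h1, i, h2⟩ := mem_sph.1 hy
  rw [mem_bx] at h1
  simp only [Pi.zero_apply, sub_zero] at h1 h2
  rcases abs_eq (by positivity : (0 : ℤ) ≤ m) |>.1 h2 with h | h
  · exact ⟨i, true, mem_face.2 ⟨by simp [sg, h], fun j _ => h1 j⟩⟩
  · exact ⟨i, false, mem_face.2 ⟨by simp [sg, h], fun j _ => h1 j⟩⟩

/-! ### Neighbours -/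

lemma step_unit {x y : V d} (h : ∑ i, |x i - y i| = 1) :
    ∃ (i : Fin d) (s : Bool), y = x + Pi.single i (sg s) := by
  have h0 : ∃ i, x i - y i ≠ 0 := by
    by_contra hcon
    push Not at hcon
    rw [Finset.sum_eq_zero fun i _ => by rw [hcon i, abs_zero]] at h
    exact absurd h (by norm_num)
  obtain ⟨i, hi⟩ := h0
  have h1 : |x i - y i| + ∑ j ∈ Finset.univ.erase i, |x j - y j| = 1 := by
    rw [Finset.add_sum_erase _ (fun j => |x j - y j|) (Finset.mem_univ i)]
    exact h
  have h2 : 0 ≤ ∑ j ∈ Finset.univ.erase i, |x j - y j| :=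
    Finset.sum_nonneg fun _ _ => abs_nonneg _
  have h3 : 1 ≤ |x i - y i| := Int.one_le_abs hi
  have h4 : |x i - y i| = 1 := by omega
  have h5 : ∑ j ∈ Finset.univ.erase i, |x j - y j| = 0 := by omega
  have h6 : ∀ j, j ≠ i → x j = y j := by
    intro j hj
    have := (Finset.sum_eq_zero_iff_of_nonneg (fun _ _ => abs_nonneg _)).1 h5 j
      (Finset.mem_erase.2 ⟨hj, Finset.mem_univ j⟩)
    have := abs_eq_zero.1 this
    omega
  rcases abs_eq (by norm_num : (0 : ℤ) ≤ 1) |>.1 h4 with h | h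
  · refine ⟨i, false, ?_⟩
    funext j
    by_cases hj : j = i
    · rw [hj, Pi.add_apply, Pi.single_eq_same]
      simp only [sg]
      norm_num
      omega
    · rw [Pi.add_apply, Pi.single_eq_of_ne hj, add_zero, h6 j hj]
  · refine ⟨i, true, ?_⟩
    funext j
    by_cases hj : j = i
    · rw [hj, Pi.add_apply, Pi.single_eq_same]
      simp only [sg]
      norm_num
      omega
    · rw [Pi.add_apply, Pi.single_eq_of_ne hj, add_zero, h6 j hj]

/-! ### The profile -/

/-- The open edges from `H` to its complement. -/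
def bdry (ω : V d → Bool) (H : Finset (V d)) : Set (V d × V d) :=
  {e | e.1 ∈ H ∧ e.2 ∉ H ∧ (openGraph ω univ).Adj e.1 e.2}

/-- The sets in the definition of the profile. -/
def Anch (ω : V d → Bool) (n : ℕ) (x : V d) (H : Finset (V d)) : Prop :=
  (x ∈ H ∧ ω x = true) ∧ H.card ≤ n ^ d ∧ (∀ y ∈ H, ∀ i, |y i - x i| ≤ n) ∧
    ((openGraph ω univ).induce (H : Set (V d))).Connected

/-- The anchored isoperimetric profile. -/
def prof (ω : V d → Bool) (n : ℕ) (x : V d) : ℝ :=
  sInf {t : ℝ | ∃ H : Finset (V d), Anch ω n x H ∧ t = (bdry ω H).ncard / H.card}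

lemma prof_nonneg (ω : V d → Bool) (n : ℕ) (x : V d) : 0 ≤ prof ω n x := by
  apply Real.sInf_nonneg
  rintro t ⟨H, -, rfl⟩
  positivity

lemma prof_le {ω : V d → Bool} {n : ℕ} {x : V d} {H : Finset (V d)} (h : Anch ω n x H) :
    prof ω n x ≤ (bdry ω H).ncard / H.card := by
  refine csInf_le ⟨0, ?_⟩ ⟨H, h, rfl⟩
  rintro t ⟨H, -, rfl⟩
  positivity

lemma prof_closed {ω : V d → Bool} {n : ℕ} {x : V d} (h : ω x = false) : prof ω n x = 0 := by
  have : {t : ℝ | ∃ H : Finset (V d), Anch ω n x H ∧ t = (bdry ω H).ncard / H.card} = ∅ := by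
    ext t
    simp only [mem_ofPred_eq, mem_empty_iff_false, iff_false, not_exists, not_and]
    intro H hH
    rw [hH.1.2] at h
    exact absurd h (by simp)
  unfold prof
  rw [this, Real.sInf_empty]

/-- edges of the boundary start on the boundary of the box -/
lemma bdry_card (ω : V d → Bool) (H T : Finset (V d)) (h : ∀ e ∈ bdry ω H, e.1 ∈ T) :
    (bdry ω H).ncard ≤ 2 * d * T.card := by
  classical
  have hsub : bdry ω H ⊆ ((T ×ˢ (Finset.univ : Finset (Fin d × Bool))).image
      fun q : V d × (Fin d × Bool) => (q.1, q.1 + Pi.single q.2.1 (sg q.2.2)) :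
        Finset (V d × V d)) := by
    rintro ⟨y, w⟩ he
    obtain ⟨i, s, hw⟩ := step_unit he.2.2.1
    rw [Finset.mem_coe, Finset.mem_image]
    have hw' : w = y + Pi.single i (sg s) := hw
    exact ⟨(y, (i, s)), by simpa using h _ he, by rw [hw']⟩
  calc (bdry ω H).ncard ≤ _ := Set.ncard_le_ncard hsub (Finset.finite_toSet _)
    _ = _ := Set.ncard_coe_finset _
    _ ≤ _ := Finset.card_image_le
    _ = 2 * d * T.card := by
      rw [Finset.card_product, Finset.card_univ, Fintype.card_prod, Fintype.card_fin,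
        Fintype.card_bool]
      ring

open Classical in
/-- the cluster in the box as a finite set -/
def clf (ω : V d → Bool) (z : V d) (m : ℕ) (x : V d) : Finset (V d) :=
  {y ∈ bx z m | y ∈ cluster ω (BX z m) x}

lemma mem_clf {ω : V d → Bool} {z : V d} {m : ℕ} {x y : V d} :
    y ∈ clf ω z m x ↔ y ∈ cluster ω (BX z m) x := by
  classical
  unfold clf
  rw [Finset.mem_filter]
  exact ⟨fun h => h.2, fun h => ⟨cluster_sub _ _ _ h, h⟩⟩

open Classical in
/-- its part on the boundary -/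
def clb (ω : V d → Bool) (z : V d) (m : ℕ) (x : V d) : Finset (V d) :=
  {y ∈ sph z m | y ∈ cluster ω (BX z m) x}

lemma mem_clb {ω : V d → Bool} {z : V d} {m : ℕ} {x y : V d} :
    y ∈ clb ω z m x ↔ y ∈ sph z m ∧ y ∈ cluster ω (BX z m) x := by
  classical
  unfold clb
  rw [Finset.mem_filter]

lemma clf_bdry (ω : V d → Bool) (z : V d) (m : ℕ) (x : V d) :
    (bdry ω (clf ω z m x)).ncard ≤ 2 * d * (clb ω z m x).card := by
  apply bdry_card
  rintro ⟨y, w⟩ ⟨h1, h2, h3⟩
  simp only at h1 h2 h3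
  rw [mem_clf] at h1 h2
  rw [mem_clb, mem_sph]
  have hy := cluster_sub _ _ _ h1
  refine ⟨⟨hy, ?_⟩, h1⟩
  have hw : w ∉ bx z m := by
    intro hw
    exact h2 (cluster_step h1 h3.1 h3.2.2.2 hw)
  rw [mem_bx] at hw
  push Not at hw
  obtain ⟨i, hi⟩ := hw
  refine ⟨i, ?_⟩
  show |y i - z i| = m
  have hyi := mem_bx.1 hy i
  have h4 : |y i - w i| ≤ 1 := by
    rw [← h3.1]
    exact Finset.single_le_sum (f := fun i => |y i - w i|) (fun i _ => abs_nonneg _)
      (Finset.mem_univ i)
  have h5 : |w i - z i| ≤ |y i - w i| + |y i - z i| := by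
    have := abs_sub_le (w i) (y i) (z i)
    rwa [abs_sub_comm (w i) (y i)] at this
  omega

lemma walk_induce {ω : V d → Bool} {S : Set (V d)} {x a b : V d}
    (p : (openGraph ω S).Walk a b) : ∀ (H : Set (V d)) (_ : ∀ y, y ∈ H ↔ y ∈ cluster ω S x)
    (ha : a ∈ H), ∃ hb : b ∈ H, ((openGraph ω univ).induce H).Reachable ⟨a, ha⟩ ⟨b, hb⟩ := by
  induction p with
  | nil => intro H _ ha; exact ⟨ha, SimpleGraph.Reachable.refl _⟩
  | cons hadj q ih =>
    rename_i u v w
    intro H hH ha
    have hv : v ∈ H := by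
      rw [hH]
      exact cluster_step ((hH u).1 ha) hadj.1 hadj.2.2.2 hadj.2.2.1
    obtain ⟨hb, hr⟩ := ih H hH hv
    refine ⟨hb, SimpleGraph.Reachable.trans (SimpleGraph.Adj.reachable ?_) hr⟩
    show (openGraph ω univ).Adj u v
    exact ⟨hadj.1, ⟨mem_univ _, hadj.2.1.2⟩, ⟨mem_univ _, hadj.2.2.2⟩⟩

lemma clf_conn {ω : V d → Bool} {z : V d} {m : ℕ} {x : V d} (hx : ω x = true) (hxz : x ∈ bx z m) :
    ((openGraph ω univ).induce (clf ω z m x : Set (V d))).Connected := by
  have hxH : x ∈ (clf ω z m x : Set (V d)) := by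
    rw [Finset.mem_coe, mem_clf]
    exact mem_self hx hxz
  have key : ∀ y : (clf ω z m x : Set (V d)),
      ((openGraph ω univ).induce (clf ω z m x : Set (V d))).Reachable ⟨x, hxH⟩ y := by
    rintro ⟨y, hy⟩
    have hy' : y ∈ cluster ω (BX z m) x := by
      rw [Finset.mem_coe, mem_clf] at hy
      exact hy
    obtain ⟨p⟩ := hy'.2
    obtain ⟨_, h⟩ := walk_induce (x := x) p (clf ω z m x : Set (V d))
      (fun y => by rw [Finset.mem_coe, mem_clf]) hxH
    exact h
  have : Nonempty (clf ω z m x : Set (V d)) := ⟨⟨x, hxH⟩⟩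
  exact ⟨fun y y' => (key y).symm.trans (key y')⟩

/-- the ratio -/
def rat (ω : V d → Bool) (z : V d) (m : ℕ) (x : V d) : ℝ :=
  (clb ω z m x).card / (clf ω z m x).card

lemma prof_rat {ω : V d → Bool} {x z : V d} {m n k : ℕ} (hz : z ∈ bx x k) (hkm : k ≤ m)
    (hmn : m + k ≤ n) (hm2 : 2 * m + 1 ≤ n) : prof ω n x ≤ 2 * d * rat ω z m x := by
  cases hx : ω x with
  | false =>
    rw [prof_closed hx]
    unfold rat
    positivity
  | true =>
    have hxz : x ∈ bx z m := by
      rw [mem_bx] at hz ⊢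
      intro i
      have := hz i
      rw [abs_sub_comm] at this
      exact this.trans (by exact_mod_cast hkm)
    have hA : Anch ω n x (clf ω z m x) := by
      refine ⟨⟨mem_clf.2 (mem_self hx hxz), hx⟩, ?_, ?_, clf_conn hx hxz⟩
      · calc (clf ω z m x).card ≤ (bx z m).card :=
            Finset.card_le_card fun y hy => cluster_sub _ _ _ (mem_clf.1 hy)
          _ = (2 * m + 1) ^ d := card_bx z m
          _ ≤ n ^ d := Nat.pow_le_pow_left hm2 d
      · intro y hy i
        have h1 := mem_bx.1 (cluster_sub _ _ _ (mem_clf.1 hy)) i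
        have h2 := mem_bx.1 hz i
        have h3 : |y i - x i| ≤ |y i - z i| + |z i - x i| := abs_sub_le _ _ _
        omega
    refine (prof_le hA).trans ?_
    unfold rat
    rw [← mul_div_assoc]
    gcongr
    exact_mod_cast clf_bdry ω z m x

/-! ### Mass transport -/

open Classical in
lemma sum_rat (ω : V d → Bool) (m k : ℕ) :
    ∑ x ∈ bx (0 : V d) k, rat ω 0 m x ≤
      ∑ y ∈ sph (0 : V d) m, if ∃ x ∈ bx (0 : V d) k, x ∈ cluster ω (BX 0 m) y then 1 else 0 := by
  have h1 : ∀ x : V d, rat ω 0 m x = ∑ y ∈ sph (0 : V d) m,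
      if y ∈ cluster ω (BX 0 m) x then 1 / ((clf ω 0 m x).card : ℝ) else 0 := by
    intro x
    unfold rat clb
    rw [← Finset.sum_filter, Finset.sum_const, nsmul_eq_mul]
    ring
  simp_rw [h1]
  rw [Finset.sum_comm]
  refine Finset.sum_le_sum fun y hy => ?_
  split_ifs with h
  · have h2 : ∀ x ∈ bx (0 : V d) k,
        (if y ∈ cluster ω (BX 0 m) x then 1 / ((clf ω 0 m x).card : ℝ) else 0) ≤
          if x ∈ clf ω 0 m y then 1 / ((clf ω 0 m y).card : ℝ) else 0 := by
      intro x _
      by_cases hxy : y ∈ cluster ω (BX 0 m) x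
      · rw [if_pos hxy, if_pos (mem_clf.2 (cluster_symm hxy))]
        have : clf ω 0 m x = clf ω 0 m y := by
          ext w
          rw [mem_clf, mem_clf, cluster_eq hxy]
        rw [this]
      · rw [if_neg hxy]
        split_ifs <;> positivity
    refine (Finset.sum_le_sum h2).trans ?_
    rw [← Finset.sum_filter, Finset.sum_const, nsmul_eq_mul, mul_one_div]
    refine div_le_one_of_le₀ ?_ (by positivity)
    exact_mod_cast Finset.card_le_card fun x hx => (Finset.mem_filter.1 hx).2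
  · refine (Finset.sum_eq_zero fun x hx => ?_).le
    rw [if_neg]
    intro hxy
    exact h ⟨x, hx, cluster_symm hxy⟩

lemma rat_nonneg (ω : V d → Bool) (z : V d) (m : ℕ) (x : V d) : 0 ≤ rat ω z m x := by
  unfold rat
  positivity

lemma clb_sub (ω : V d → Bool) (z : V d) (m : ℕ) (x : V d) : clb ω z m x ⊆ clf ω z m x := by
  intro y hy
  exact mem_clf.2 (mem_clb.1 hy).2

lemma rat_le_one (ω : V d → Bool) (z : V d) (m : ℕ) (x : V d) : rat ω z m x ≤ 1 := by
  unfold rat
  refine div_le_one_of_le₀ ?_ (by positivity)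
  exact_mod_cast Finset.card_le_card (clb_sub ω z m x)

lemma cluster_local {ω ω' : V d → Bool} {S : Set (V d)} (h : ∀ y ∈ S, ω y = ω' y) (x : V d) :
    cluster ω S x = cluster ω' S x := by
  have e : openGraph ω S = openGraph ω' S := by
    ext a b
    show (_ ∧ (a ∈ S ∧ ω a = true) ∧ (b ∈ S ∧ ω b = true)) ↔
      (_ ∧ (a ∈ S ∧ ω' a = true) ∧ (b ∈ S ∧ ω' b = true))
    constructor
    · rintro ⟨h1, ⟨h2, h3⟩, h4, h5⟩
      exact ⟨h1, ⟨h2, by rw [← h a h2]; exact h3⟩, h4, by rw [← h b h4]; exact h5⟩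
    · rintro ⟨h1, ⟨h2, h3⟩, h4, h5⟩
      exact ⟨h1, ⟨h2, by rw [h a h2]; exact h3⟩, h4, by rw [h b h4]; exact h5⟩
  ext y
  show ((ω x = true ∧ x ∈ S) ∧ _) ↔ ((ω' x = true ∧ x ∈ S) ∧ _)
  rw [e]
  constructor
  · rintro ⟨⟨h1, h2⟩, h3⟩
    exact ⟨⟨by rw [← h x h2]; exact h1, h2⟩, h3⟩
  · rintro ⟨⟨h1, h2⟩, h3⟩
    exact ⟨⟨by rw [h x h2]; exact h1, h2⟩, h3⟩

lemma meas_rat (z : V d) (m : ℕ) (x : V d) : Measurable fun ω : V d → Bool => rat ω z m x := by
  classical
  refine meas_local (bx z m) _ fun ω ω' h => ?_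
  unfold rat clb clf
  have := cluster_local (S := (bx z m : Set (V d))) h x
  rw [this]

lemma int_rat (p : unitInterval) (z : V d) (m : ℕ) (x : V d) :
    Integrable (fun ω : V d → Bool => rat ω z m x) (mu d p) := by
  refine Integrable.of_bound (meas_rat z m x).aestronglyMeasurable 1 ?_
  filter_upwards with ω
  rw [Real.norm_eq_abs, abs_of_nonneg (rat_nonneg ω z m x)]
  exact rat_le_one ω z m x

lemma rat_shift (ω : V d → Bool) (z : V d) (m : ℕ) (x : V d) :
    rat (fun c => ω (c + z)) 0 m x = rat ω z m (x + z) := by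
  have hσ : ∀ u w : V d, ∑ j, |(Equiv.addRight z) u j - (Equiv.addRight z) w j| =
      ∑ j, |u j - w j| := by
    intro u w
    refine Finset.sum_congr rfl fun j _ => ?_
    simp only [Equiv.coe_addRight, Pi.add_apply, add_sub_add_right_eq_sub]
  have hST : ∀ w : V d, w ∈ (bx (0 : V d) m : Set (V d)) ↔
      (Equiv.addRight z) w ∈ (bx z m : Set (V d)) := by
    intro w
    rw [Finset.mem_coe, Finset.mem_coe, mem_bx, mem_bx]
    simp
  have key : ∀ y : V d, y ∈ cluster (fun c => ω (c + z)) (BX (0 : V d) m) x ↔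
      y + z ∈ cluster ω (BX z m) (x + z) := fun y =>
    cluster_sym (Equiv.addRight z) hσ ω hST x y
  have h1 : (clf (fun c => ω (c + z)) 0 m x).card = (clf ω z m (x + z)).card := by
    refine Finset.card_bij (fun y _ => y + z) ?_ ?_ ?_
    · intro y hy
      rw [mem_clf] at hy ⊢
      exact (key y).1 hy
    · intro a _ b _ hab
      exact add_right_cancel hab
    · intro y hy
      refine ⟨y - z, ?_, sub_add_cancel y z⟩
      rw [mem_clf] at hy ⊢
      rw [key, sub_add_cancel]
      exact hy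
  have hsph : ∀ y : V d, y ∈ sph (0 : V d) m ↔ y + z ∈ sph z m := by
    intro y
    rw [mem_sph, mem_sph, mem_bx, mem_bx]
    simp
  have h2 : (clb (fun c => ω (c + z)) 0 m x).card = (clb ω z m (x + z)).card := by
    refine Finset.card_bij (fun y _ => y + z) ?_ ?_ ?_
    · intro y hy
      rw [mem_clb] at hy ⊢
      exact ⟨(hsph y).1 hy.1, (key y).1 hy.2⟩
    · intro a _ b _ hab
      exact add_right_cancel hab
    · intro y hy
      refine ⟨y - z, ?_, sub_add_cancel y z⟩
      rw [mem_clb] at hy ⊢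
      rw [key, hsph, sub_add_cancel]
      exact hy
  unfold rat
  rw [h1, h2]

lemma integral_rat (p : unitInterval) (z : V d) (m : ℕ) (x : V d) :
    ∫ ω, rat ω z m x ∂(mu d p) = ∫ ω, rat ω 0 m (x - z) ∂(mu d p) := by
  have h1 := mp_sym p (Equiv.addRight z)
  have h2 : ∫ ω, rat ω 0 m (x - z) ∂(mu d p) =
      ∫ ω, rat (fun c => ω ((Equiv.addRight z) c)) 0 m (x - z) ∂(mu d p) := by
    conv_lhs => rw [← h1.map_eq]
    rw [integral_map h1.measurable.aemeasurable
      (meas_rat 0 m (x - z)).aestronglyMeasurable]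
  rw [h2]
  refine integral_congr_ae (ae_of_all _ fun ω => ?_)
  have := rat_shift ω z m (x - z)
  rw [sub_add_cancel] at this
  exact this.symm

/-! ### Measurability of the profile -/

lemma prof_local {ω ω' : V d → Bool} {n : ℕ} {x : V d} (h : ∀ y ∈ bx x (n + 1), ω y = ω' y) :
    prof ω n x = prof ω' n x := by
  have hsub : ∀ y ∈ bx x n, y ∈ bx x (n + 1) := by
    intro y hy
    rw [mem_bx] at hy ⊢
    intro i
    have := hy i
    push_cast
    omega
  have key : ∀ ω ω' : V d → Bool, (∀ y ∈ bx x (n + 1), ω y = ω' y) → ∀ t : ℝ,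
      (∃ H : Finset (V d), Anch ω n x H ∧ t = (bdry ω H).ncard / H.card) →
      ∃ H : Finset (V d), Anch ω' n x H ∧ t = (bdry ω' H).ncard / H.card := by
    rintro ω ω' h t ⟨H, ⟨⟨hx1, hx2⟩, hc, hb, hconn⟩, ht⟩
    have hH : ∀ y ∈ H, y ∈ bx x n := fun y hy => mem_bx.2 (hb y hy)
    have e1 : (openGraph ω univ).induce (H : Set (V d)) =
        (openGraph ω' univ).induce (H : Set (V d)) := by
      ext ⟨a, ha⟩ ⟨b, hb⟩
      show (_ ∧ (a ∈ univ ∧ ω a = true) ∧ (b ∈ univ ∧ ω b = true)) ↔
        (_ ∧ (a ∈ univ ∧ ω' a = true) ∧ (b ∈ univ ∧ ω' b = true))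
      rw [h a (hsub a (hH a ha)), h b (hsub b (hH b hb))]
    have e2 : bdry ω H = bdry ω' H := by
      ext ⟨a, b⟩
      show (a ∈ H ∧ b ∉ H ∧ (∑ i, |a i - b i| = 1 ∧ (a ∈ univ ∧ ω a = true) ∧
        (b ∈ univ ∧ ω b = true))) ↔ (a ∈ H ∧ b ∉ H ∧ (∑ i, |a i - b i| = 1 ∧
          (a ∈ univ ∧ ω' a = true) ∧ (b ∈ univ ∧ ω' b = true)))
      refine and_congr_right fun ha => and_congr_right fun _ => and_congr_right fun hab => ?_
      have hbb : b ∈ bx x (n + 1) := by
        rw [mem_bx]
        intro i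
        have h1 := mem_bx.1 (hH a ha) i
        have h2 : |a i - b i| ≤ 1 := by
          rw [← hab]
          exact Finset.single_le_sum (f := fun i => |a i - b i|) (fun i _ => abs_nonneg _)
            (Finset.mem_univ i)
        have h3 : |b i - x i| ≤ |a i - b i| + |a i - x i| := by
          have := abs_sub_le (b i) (a i) (x i)
          rwa [abs_sub_comm (b i) (a i)] at this
        push_cast
        omega
      rw [h a (hsub a (hH a ha)), h b hbb]
    refine ⟨H, ⟨⟨hx1, ?_⟩, hc, hb, by rw [← e1]; exact hconn⟩, by rw [← e2]; exact ht⟩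
    rw [← h x (hsub x (hH x hx1))]
    exact hx2
  unfold prof
  congr 1
  ext t
  exact ⟨key ω ω' h t, key ω' ω (fun y hy => (h y hy).symm) t⟩

lemma meas_prof (n : ℕ) (x : V d) : Measurable fun ω : V d → Bool => prof ω n x :=
  meas_local (bx x (n + 1)) _ fun _ _ h => prof_local h

lemma prof_le_deg {ω : V d → Bool} {n : ℕ} (hn : 1 ≤ n) (x : V d) : prof ω n x ≤ 2 * d := by
  have h1 : prof ω n x ≤ 2 * d * rat ω x 0 x :=
    prof_rat (k := 0) (mem_bx.2 fun i => by simp) le_rfl (by omega) (by omega)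
  have h2 := rat_le_one ω x 0 x
  have h3 : (0 : ℝ) ≤ 2 * d := by positivity
  nlinarith

lemma int_prof (p : unitInterval) {n : ℕ} (hn : 1 ≤ n) (x : V d) :
    Integrable (fun ω : V d → Bool => prof ω n x) (mu d p) := by
  refine Integrable.of_bound (meas_prof n x).aestronglyMeasurable (2 * d) ?_
  filter_upwards with ω
  rw [Real.norm_eq_abs, abs_of_nonneg (prof_nonneg ω n x)]
  exact prof_le_deg hn x

/-! ### The bound -/

lemma Ar_of_face {ω : V d → Bool} {m k : ℕ} {i : Fin d} {s : Bool} {y : V d}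
    (hy : y ∈ face i s m) (h : ∃ x ∈ bx (0 : V d) k, x ∈ cluster ω (BX 0 m) y) :
    ω ∈ Ar i (!s) (m - k) y := by
  obtain ⟨x, hx, hxy⟩ := h
  have hyi := (mem_face.1 hy).1
  refine ⟨x, ?_, cluster_mono ?_ y hxy⟩
  · have h1 := mem_bx.1 hx i
    rw [Pi.zero_apply, sub_zero] at h1
    have h2 : ((x - y) i).natAbs ≤ nrm (x - y) :=
      Finset.le_sup (f := fun i => ((x - y) i).natAbs) (Finset.mem_univ i)
    rw [Pi.sub_apply, hyi] at h2
    have h3 := abs_le.1 h1
    cases s <;> simp only [sg] at h2 <;> norm_num at h2 <;> omega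
  · intro w hw
    have h1 := mem_bx.1 (Finset.mem_coe.1 hw) i
    rw [Pi.zero_apply, sub_zero] at h1
    have h3 := abs_le.1 h1
    show 0 ≤ sg (!s) * (w i - y i)
    rw [hyi]
    cases s <;> simp only [sg] <;> norm_num <;> omega

open Classical in
lemma sph_bound (p : unitInterval) (m k : ℕ) (q : ℝ)
    (hq : ∀ (i : Fin d) (s : Bool) (x : V d), (mu d p).real (Ar i s (m - k) x) ≤ q) :
    ∫ ω, (∑ y ∈ sph (0 : V d) m,
      if ∃ x ∈ bx (0 : V d) k, x ∈ cluster ω (BX 0 m) y then (1 : ℝ) else 0) ∂(mu d p) ≤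
        2 * d * ((2 * m + 1) ^ (d - 1) * q) := by
  have hind : ∀ (i : Fin d) (s : Bool) (y : V d),
      ∫ ω, (Ar i s (m - k) y).indicator (fun _ => (1 : ℝ)) ω ∂(mu d p) ≤ q := by
    intro i s y
    rw [integral_indicator_const _ (meas_Ar i s (m - k) y), smul_eq_mul, mul_one]
    exact hq i s y
  have hint : ∀ (i : Fin d) (s : Bool) (y : V d),
      Integrable (fun ω => (Ar i s (m - k) y).indicator (fun _ => (1 : ℝ)) ω) (mu d p) :=
    fun i s y => (integrable_const (1 : ℝ)).indicator (meas_Ar i s (m - k) y)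
  calc ∫ ω, (∑ y ∈ sph (0 : V d) m,
      if ∃ x ∈ bx (0 : V d) k, x ∈ cluster ω (BX 0 m) y then (1 : ℝ) else 0) ∂(mu d p)
      ≤ ∫ ω, (∑ i : Fin d, ∑ s : Bool, ∑ y ∈ face i s m,
          (Ar i (!s) (m - k) y).indicator (fun _ => (1 : ℝ)) ω) ∂(mu d p) := by
        refine integral_mono_of_nonneg (ae_of_all _ fun ω => ?_) ?_ (ae_of_all _ fun ω => ?_)
        · exact Finset.sum_nonneg fun y _ => by split_ifs <;> norm_num
        · exact integrable_finsetSum _ fun i _ => integrable_finsetSum _ fun s _ =>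
            integrable_finsetSum _ fun y _ => hint i (!s) y
        · show (∑ y ∈ sph (0 : V d) m,
            if ∃ x ∈ bx (0 : V d) k, x ∈ cluster ω (BX 0 m) y then (1 : ℝ) else 0) ≤ _
          have h0 : ∀ (i : Fin d) (s : Bool) (y : V d),
              0 ≤ (Ar i (!s) (m - k) y).indicator (fun _ => (1 : ℝ)) ω := fun i s y =>
            Set.indicator_nonneg (fun _ _ => zero_le_one) ω
          have h1 : ∀ y ∈ sph (0 : V d) m,
              (if ∃ x ∈ bx (0 : V d) k, x ∈ cluster ω (BX 0 m) y then (1 : ℝ) else 0) ≤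
                ∑ i : Fin d, ∑ s : Bool, if y ∈ face i s m then
                  (Ar i (!s) (m - k) y).indicator (fun _ => (1 : ℝ)) ω else 0 := by
            intro y hy
            have h2 : ∀ (i : Fin d) (s : Bool), (0 : ℝ) ≤ if y ∈ face i s m then
                (Ar i (!s) (m - k) y).indicator (fun _ => (1 : ℝ)) ω else 0 := by
              intro i s
              split_ifs
              · exact h0 i s y
              · exact le_rfl
            split_ifs with h
            · obtain ⟨i, s, his⟩ := sph_face hy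
              have h3 : (1 : ℝ) ≤ if y ∈ face i s m then
                  (Ar i (!s) (m - k) y).indicator (fun _ => (1 : ℝ)) ω else 0 := by
                rw [if_pos his, Set.indicator_of_mem (Ar_of_face his h)]
              refine h3.trans ?_
              refine le_trans ?_ (Finset.single_le_sum (f := fun i => ∑ s : Bool,
                if y ∈ face i s m then (Ar i (!s) (m - k) y).indicator (fun _ => (1 : ℝ)) ω
                  else 0) (fun i _ => Finset.sum_nonneg fun s _ => h2 i s) (Finset.mem_univ i))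
              exact Finset.single_le_sum (f := fun s => if y ∈ face i s m then
                (Ar i (!s) (m - k) y).indicator (fun _ => (1 : ℝ)) ω else 0)
                (fun s _ => h2 i s) (Finset.mem_univ s)
            · exact Finset.sum_nonneg fun i _ => Finset.sum_nonneg fun s _ => h2 i s
          refine (Finset.sum_le_sum h1).trans ?_
          rw [Finset.sum_comm]
          refine Finset.sum_le_sum fun i _ => ?_
          rw [Finset.sum_comm]
          refine Finset.sum_le_sum fun s _ => ?_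
          rw [← Finset.sum_filter]
          refine Finset.sum_le_sum_of_subset_of_nonneg ?_ fun y _ _ => h0 i s y
          intro y hy
          exact (Finset.mem_filter.1 hy).2
    _ = ∑ i : Fin d, ∑ s : Bool, ∑ y ∈ face i s m,
          ∫ ω, (Ar i (!s) (m - k) y).indicator (fun _ => (1 : ℝ)) ω ∂(mu d p) := by
        rw [integral_finsetSum _ fun i _ => integrable_finsetSum _ fun s _ =>
          integrable_finsetSum _ fun y _ => hint i (!s) y]
        refine Finset.sum_congr rfl fun i _ => ?_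
        rw [integral_finsetSum _ fun s _ => integrable_finsetSum _ fun y _ => hint i (!s) y]
        refine Finset.sum_congr rfl fun s _ => ?_
        rw [integral_finsetSum _ fun y _ => hint i (!s) y]
    _ ≤ ∑ i : Fin d, ∑ s : Bool, ∑ _y ∈ face i s m, q :=
        Finset.sum_le_sum fun i _ => Finset.sum_le_sum fun s _ => Finset.sum_le_sum fun y _ =>
          hind i (!s) y
    _ = 2 * d * ((2 * m + 1) ^ (d - 1) * q) := by
        simp_rw [Finset.sum_const, nsmul_eq_mul, card_face]
        rw [Finset.sum_const, Finset.sum_const, Finset.card_univ, Finset.card_univ,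
          Fintype.card_fin, Fintype.card_bool, nsmul_eq_mul, nsmul_eq_mul]
        push_cast
        ring

theorem prof_int (p : unitInterval) (x : V d) {m n k : ℕ} (hkm : k ≤ m)
    (hmn : m + k ≤ n) (hm2 : 2 * m + 1 ≤ n) (q : ℝ)
    (hq : ∀ (i : Fin d) (s : Bool) (x : V d), (mu d p).real (Ar i s (m - k) x) ≤ q) :
    (2 * k + 1) ^ d * ∫ ω, prof ω n x ∂(mu d p) ≤
      2 * d * (2 * d * ((2 * m + 1) ^ (d - 1) * q)) := by
  classical
  have h1 : ∀ z ∈ bx x k, ∫ ω, prof ω n x ∂(mu d p) ≤
      2 * d * ∫ ω, rat ω 0 m (x - z) ∂(mu d p) := by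
    intro z hz
    rw [← integral_rat, ← integral_const_mul]
    exact integral_mono (int_prof p (by omega) x) ((int_rat p z m x).const_mul _)
      fun ω => prof_rat hz hkm hmn hm2
  have h2 := Finset.sum_le_sum h1
  rw [Finset.sum_const, nsmul_eq_mul, card_bx, ← Finset.mul_sum] at h2
  push_cast at h2
  refine h2.trans (mul_le_mul_of_nonneg_left ?_ (by positivity))
  have h3 : ∑ z ∈ bx x k, ∫ ω, rat ω 0 m (x - z) ∂(mu d p) =
      ∑ y ∈ bx (0 : V d) k, ∫ ω, rat ω 0 m y ∂(mu d p) := by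
    refine Finset.sum_nbij' (fun z => x - z) (fun y => x - y) ?_ ?_ ?_ ?_ ?_
    · intro z hz
      rw [mem_bx] at hz ⊢
      intro i
      rw [Pi.sub_apply, Pi.zero_apply, sub_zero, abs_sub_comm]
      exact hz i
    · intro z hz
      rw [mem_bx] at hz ⊢
      intro i
      have := hz i
      rw [Pi.zero_apply, sub_zero] at this
      rw [Pi.sub_apply, sub_sub_cancel_left, abs_neg]
      exact this
    · intro z _
      exact sub_sub_cancel x z
    · intro z _
      exact sub_sub_cancel x z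
    · intro z _
      rfl
  rw [h3, ← integral_finsetSum _ fun y _ => int_rat p 0 m y]
  refine le_trans ?_ (sph_bound p m k q hq)
  refine integral_mono_of_nonneg (ae_of_all _ fun ω => Finset.sum_nonneg fun y _ =>
    rat_nonneg ω 0 m y) ?_ (ae_of_all _ fun ω => sum_rat ω m k)
  refine Integrable.of_bound (C := ((sph (0 : V d) m).card : ℝ)) ?_ ?_
  · refine (meas_local (bx 0 m) _ fun ω ω' h => ?_).aestronglyMeasurable
    refine Finset.sum_congr rfl fun y _ => ?_
    rw [cluster_local (S := BX (0 : V d) m) h y]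
  · filter_upwards with ω
    rw [Real.norm_eq_abs, abs_of_nonneg (Finset.sum_nonneg fun y _ => by split_ifs <;> norm_num)]
    calc _ ≤ ∑ _y ∈ sph (0 : V d) m, (1 : ℝ) :=
          Finset.sum_le_sum fun y _ => by split_ifs <;> norm_num
      _ = _ := by rw [Finset.sum_const, nsmul_eq_mul, mul_one]

/-- **The anchored isoperimetric profile at and near the critical point.** -/
theorem iso (hd : 3 ≤ d) : ∃ c C : ℝ, 0 < c ∧ 0 < C ∧ ∀ (p : unitInterval) (L : ℝ) (n : ℕ), 2 ≤ L →
    L ≤ n → (p : ℝ) ≤ pc d + 1 / L → ∀ x : V d,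
      n * ∫ ω, prof ω n x ∂(mu d p) ≤ C / Real.log L ^ c := by
  obtain ⟨c, C, hc, hC, h⟩ := arm hd
  refine ⟨c, 16 * d * d * 3 ^ (d - 1) * C + 4 * d * Real.log 2 ^ c, hc, by positivity, ?_⟩
  intro p L n hL hLn hp x
  have hlL : 0 < Real.log L := Real.log_pos (by linarith)
  have hlc : 0 < Real.log L ^ c := by positivity
  have hn2 : 2 ≤ n := by
    have : (2 : ℝ) ≤ n := hL.trans hLn
    exact_mod_cast this
  rcases Nat.eq_or_lt_of_le hn2 with hn | hn
  · subst hn
    have hL2 : L = 2 := le_antisymm (by exact_mod_cast hLn) hL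
    have h1 : ∫ ω, prof ω 2 x ∂(mu d p) ≤ 2 * d := by
      have := integral_mono (int_prof p (n := 2) (by omega) x) (integrable_const (2 * (d : ℝ)))
        fun ω => prof_le_deg (by omega) x
      simpa using this
    rw [hL2, le_div_iff₀ (by rw [← hL2]; exact hlc)]
    have h2 : 0 < Real.log 2 ^ c := by rw [← hL2]; exact hlc
    have h3 : 0 ≤ 16 * (d : ℝ) * d * 3 ^ (d - 1) * C := by positivity
    push_cast
    nlinarith
  · obtain ⟨m, hm⟩ : ∃ m : ℕ, m = (n - 1) / 2 := ⟨_, rfl⟩
    obtain ⟨k, hk⟩ : ∃ k : ℕ, k = m / 2 := ⟨_, rfl⟩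
    have hm1 : 1 ≤ m := by omega
    have hq := h p L (m - k) hL hp (by
      have h1 : n ≤ 16 * (m - k + 1) := by omega
      have h2 : (n : ℝ) ≤ 16 * ((m - k : ℕ) + 1) := by exact_mod_cast h1
      linarith)
    have h1 := prof_int p x (m := m) (n := n) (k := k) (by omega) (by omega) (by omega)
      (C / Real.log L ^ c) hq
    obtain ⟨I, hI⟩ : ∃ I : ℝ, I = ∫ ω, prof ω n x ∂(mu d p) := ⟨_, rfl⟩
    rw [← hI] at h1 ⊢
    have hI0 : 0 ≤ I := by
      rw [hI]
      exact integral_nonneg fun ω => prof_nonneg ω n x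
    obtain ⟨Q, hQ⟩ : ∃ Q : ℝ, Q = C / Real.log L ^ c := ⟨_, rfl⟩
    have hQ0 : 0 ≤ Q := by rw [hQ]; positivity
    rw [← hQ] at h1
    have hmR : (1 : ℝ) ≤ m := by exact_mod_cast hm1
    have h2 : (m : ℝ) ^ d ≤ (2 * k + 1) ^ d := by
      refine pow_le_pow_left₀ (by linarith) ?_ d
      have : m ≤ 2 * k + 1 := by omega
      exact_mod_cast this
    have h3 : (2 * (m : ℝ) + 1) ^ (d - 1) ≤ 3 ^ (d - 1) * m ^ (d - 1) := by
      rw [← mul_pow]
      exact pow_le_pow_left₀ (by positivity) (by linarith) _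
    have h4 : (m : ℝ) ^ d = m ^ (d - 1) * m := by
      rw [← pow_succ]
      congr 1
      omega
    have h5 : (0 : ℝ) < m ^ (d - 1) := by positivity
    have h6 : (m : ℝ) * I ≤ 4 * d * d * 3 ^ (d - 1) * Q := by
      have h7 : (m : ℝ) ^ (d - 1) * (m * I) ≤ m ^ (d - 1) * (4 * d * d * 3 ^ (d - 1) * Q) := by
        calc (m : ℝ) ^ (d - 1) * (m * I) = m ^ d * I := by rw [h4]; ring
          _ ≤ (2 * k + 1) ^ d * I := mul_le_mul_of_nonneg_right h2 hI0
          _ ≤ 2 * d * (2 * d * ((2 * m + 1) ^ (d - 1) * Q)) := h1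
          _ ≤ 2 * d * (2 * d * (3 ^ (d - 1) * m ^ (d - 1) * Q)) := by gcongr
          _ = _ := by ring
      exact le_of_mul_le_mul_left h7 h5
    have h8 : (n : ℝ) ≤ 4 * m := by
      have : n ≤ 4 * m := by omega
      exact_mod_cast this
    have h9 : 0 ≤ 4 * (d : ℝ) * Real.log 2 ^ c / Real.log L ^ c := by positivity
    calc (n : ℝ) * I ≤ 4 * m * I := mul_le_mul_of_nonneg_right h8 hI0
      _ = 4 * (m * I) := by ring
      _ ≤ 4 * (4 * d * d * 3 ^ (d - 1) * Q) := by linarith
      _ ≤ 16 * d * d * 3 ^ (d - 1) * Q + 4 * d * Real.log 2 ^ c / Real.log L ^ c := by linarith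
      _ = _ := by rw [hQ]; ring

end

end Pool.Agent.H580.MF
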