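import Pool.Agent.H580.MF.Iso

set_option autoImplicit false

open MeasureTheory Set Filter
open scoped Topology ENNReal

/-!
# The anchored isoperimetric profile at the critical point, almost surely
-/

namespace Pool.Agent.H580.MF

open Pool.Agent.Results.MP_e13933_pr.HalfSpace (V P openGraph cluster pc)

noncomputable section

variable {d : ℕ}

lemma log_pos_two (n : ℕ) : 0 < Real.log ((n : ℝ) + 2) := Real.log_pos (by
    have : (0 : ℝ) ≤ n := Nat.cast_nonneg n
    linarith)

/-- a convergent series -/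
lemma summable_log {δ : ℝ} (hδ : 0 < δ) :
    Summable fun n : ℕ => 1 / ((n : ℝ) + 1) / Real.log (n + 2) ^ (1 + δ) := by
  rw [← summable_condensed_iff_of_nonneg]
  · have h1 : Summable fun k : ℕ => 1 / (((k + 1 : ℕ) : ℝ) ^ (1 + δ)) :=
      (summable_nat_add_iff 1).2 (Real.summable_one_div_nat_rpow.2 (by linarith))
    have h2 : Summable fun k : ℕ => (1 / (Real.log 2 / 2) ^ (1 + δ)) *
        (1 / (((k + 1 : ℕ) : ℝ) ^ (1 + δ))) := h1.mul_left _
    have hl2 : 0 < Real.log 2 := Real.log_pos (by norm_num)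
    refine Summable.of_nonneg_of_le (fun k => ?_) (fun k => ?_) h2
    · have := log_pos_two (2 ^ k)
      positivity
    · have h3 : Real.log 2 / 2 * ((k + 1 : ℕ) : ℝ) ≤ Real.log (((2 ^ k : ℕ) : ℝ) + 2) := by
        have h4 : (2 : ℝ) ^ (k + 1) ≤ (((2 ^ k : ℕ) : ℝ) + 2) ^ 2 := by
          push_cast
          have : (0 : ℝ) < 2 ^ k := by positivity
          rw [pow_succ]
          nlinarith
        have h5 := Real.log_le_log (by positivity) h4
        rw [Real.log_pow, Real.log_pow] at h5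
        push_cast at h5 ⊢
        linarith
      have h6 : 0 < Real.log 2 / 2 * ((k + 1 : ℕ) : ℝ) := by positivity
      have h7 := Real.rpow_le_rpow h6.le h3 (by linarith : 0 ≤ 1 + δ)
      have h8 : (2 : ℝ) ^ k * (1 / (((2 ^ k : ℕ) : ℝ) + 1)) ≤ 1 := by
        push_cast
        rw [mul_one_div, div_le_one (by positivity)]
        linarith
      calc (2 : ℝ) ^ k * (1 / (((2 ^ k : ℕ) : ℝ) + 1) /
            Real.log (((2 ^ k : ℕ) : ℝ) + 2) ^ (1 + δ))
          = (2 : ℝ) ^ k * (1 / (((2 ^ k : ℕ) : ℝ) + 1)) /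
            Real.log (((2 ^ k : ℕ) : ℝ) + 2) ^ (1 + δ) := by ring
        _ ≤ 1 / (Real.log 2 / 2 * ((k + 1 : ℕ) : ℝ)) ^ (1 + δ) := by
            have := Real.rpow_pos_of_pos h6 (1 + δ)
            gcongr
        _ = _ := by
            rw [Real.mul_rpow (by positivity) (by positivity), one_div_mul_one_div]
  · intro n
    have := log_pos_two n
    positivity
  · intro m n _ hmn
    have h1 := log_pos_two m
    have h2 : Real.log ((m : ℝ) + 2) ≤ Real.log ((n : ℝ) + 2) := by
      apply Real.log_le_log (by positivity)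
      have : (m : ℝ) ≤ n := by exact_mod_cast hmn
      linarith
    have h3 : (m : ℝ) ≤ n := by exact_mod_cast hmn
    have h4 := Real.rpow_le_rpow h1.le h2 (by linarith : 0 ≤ 1 + δ)
    have h5 : 0 < Real.log ((m : ℝ) + 2) ^ (1 + δ) := by positivity
    gcongr

/-- nonnegative random variables with summable expectations are summable -/
lemma ae_summable {Ω : Type*} [MeasurableSpace Ω] {μ : Measure Ω} {X : ℕ → Ω → ℝ}
    (h0 : ∀ n ω, 0 ≤ X n ω) (hi : ∀ n, Integrable (X n) μ) {b : ℕ → ℝ}
    (hb : ∀ n, ∫ ω, X n ω ∂μ ≤ b n) (hs : Summable b) :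
    ∀ᵐ ω ∂μ, Summable fun n => X n ω := by
  have h1 : ∫⁻ ω, ∑' n, ENNReal.ofReal (X n ω) ∂μ ≠ ⊤ := by
    rw [lintegral_tsum fun n => (hi n).aestronglyMeasurable.aemeasurable.ennreal_ofReal]
    have h2 : ∀ n, ∫⁻ ω, ENNReal.ofReal (X n ω) ∂μ ≤ ENNReal.ofReal (b n) := by
      intro n
      rw [← ofReal_integral_eq_lintegral_ofReal (hi n) (ae_of_all _ (h0 n))]
      exact ENNReal.ofReal_le_ofReal (hb n)
    exact ne_top_of_le_ne_top hs.tsum_ofReal_ne_top (ENNReal.tsum_le_tsum h2)
  have h2 := ae_lt_top' (AEMeasurable.tsum fun n =>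
    (hi n).aestronglyMeasurable.aemeasurable.ennreal_ofReal) h1
  filter_upwards [h2] with ω hω
  have h3 := ENNReal.summable_toReal hω.ne
  refine h3.congr fun n => ?_
  rw [ENNReal.toReal_ofReal (h0 n ω)]

/-- **Almost sure form at the critical point** -/
theorem iso_as {c C : ℝ}
    (h : ∀ (p : unitInterval) (L : ℝ) (n : ℕ), 2 ≤ L →
      L ≤ n → (p : ℝ) ≤ pc d + 1 / L → ∀ x : V d,
        n * ∫ ω, prof ω n x ∂(mu d p) ≤ C / Real.log L ^ c) {c' : ℝ} (hc' : c' < c) :
    ∀ᵐ ω ∂(mu d (pc d)), ∀ x : V d,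
      Summable fun n : ℕ => prof ω n x * Real.log n ^ (c' - 1) := by
  rw [ae_all_iff]
  intro x
  have hδ : 0 < c - c' := by linarith
  have h1 : ∀ᵐ ω ∂(mu d (pc d)), Summable fun n : ℕ =>
      prof ω (n + 2) x * Real.log ((n : ℝ) + 2) ^ (c' - 1) := by
    refine ae_summable (b := fun n => C * (1 / ((n : ℝ) + 1) / Real.log (n + 2) ^ (1 + (c - c'))))
      (fun n ω => ?_) (fun n => ?_) (fun n => ?_) ((summable_log hδ).mul_left C)
    · have := prof_nonneg ω (n + 2) x
      have := log_pos_two n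
      positivity
    · exact (int_prof (pc d) (by omega) x).mul_const _
    · rw [integral_mul_const]
      have hl := log_pos_two n
      have hn : (0 : ℝ) ≤ n := Nat.cast_nonneg n
      have h2 := h (pc d) ((n : ℝ) + 2) (n + 2) (by linarith) (by push_cast; linarith)
        (by
          have : 0 < 1 / ((n : ℝ) + 2) := by positivity
          linarith) x
      push_cast at h2
      obtain ⟨I, hI⟩ : ∃ I : ℝ, I = ∫ ω, prof ω (n + 2) x ∂(mu d (pc d)) := ⟨_, rfl⟩
      rw [← hI] at h2 ⊢
      have hI0 : 0 ≤ I := by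
        rw [hI]
        exact integral_nonneg fun ω => prof_nonneg ω _ x
      have h3 : ((n : ℝ) + 1) * I ≤ C / Real.log ((n : ℝ) + 2) ^ c := by nlinarith
      have h4 : I ≤ C / Real.log ((n : ℝ) + 2) ^ c / ((n : ℝ) + 1) := by
        rw [le_div_iff₀ (by positivity)]
        linarith
      have h5 : 0 < Real.log ((n : ℝ) + 2) ^ (c' - 1) := by positivity
      refine (mul_le_mul_of_nonneg_right h4 h5.le).trans (le_of_eq ?_)
      have h6 : Real.log ((n : ℝ) + 2) ^ (c' - 1) * Real.log ((n : ℝ) + 2) ^ (1 + (c - c')) =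
          Real.log ((n : ℝ) + 2) ^ c := by
        rw [← Real.rpow_add hl]
        congr 1
        ring
      have h7 : 0 < Real.log ((n : ℝ) + 2) ^ c := by positivity
      have h8 : 0 < Real.log ((n : ℝ) + 2) ^ (1 + (c - c')) := by positivity
      rw [div_div, div_mul_eq_mul_div, div_div, mul_one_div, div_eq_div_iff (by positivity)
        (by positivity), ← h6]
      ring
  filter_upwards [h1] with ω hω
  refine (summable_nat_add_iff 2).1 (hω.congr fun n => ?_)
  push_cast
  rfl

end

end Pool.Agent.H580.MF
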